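import Pool.Agent.H992.SF.GDefs

/-!
# SG/BCV (helper333 for helper992): the converse direction
-/

set_option autoImplicit false
open MeasureTheory Filter Topology Complex
open scoped ContDiff ENNReal

namespace Pool.Agent.H333.SG

open Pool.Agent.W745.RW (TF)
open Pool.Agent.N661.BR (MW lin meas_lin)
open Pool.Agent.N661.BH
open Pool.Agent.N814.BHM
open Pool.Agent.N814.BHASM
open Pool.Agent.H992.SF
open Pool.Agent.H992.LB (eX eX_norm eX_meas fs eγ)

theorem eXJ_norm {d : ℕ} (lam : Fin d → ℝ) (u : Fin d → ℂ → ℝ) (τ : Fin d → ℂ →₀ ℝ)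
    (p : ℂ × (ℝ × Bool)) : ‖eXJ lam u τ p‖ = 1 := by
  unfold eXJ
  rw [norm_prod]
  exact Finset.prod_eq_one fun i _ => eX_norm _ _ _ _

theorem eXJ_meas {d : ℕ} {lam : Fin d → ℝ} {u : Fin d → ℂ → ℝ}
    (hu : ∀ i, ContDiffOn ℝ ∞ (u i) HP) (τ : Fin d → ℂ →₀ ℝ) : Measurable (eXJ lam u τ) := by
  show Measurable fun p => ∏ i, eX (lam i) (u i) (τ i) p
  exact Finset.measurable_prod _ fun i _ => eX_meas (hu i) (τ i)

section

variable {Ω : Set ℂ} {lam : ℕ → ℝ} {u : ℕ → ℂ → ℝ}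

theorem meas_wt {φ : ℂ → ℝ} (hφ : Wt Ω φ) : Measurable fun p : ℂ × (ℝ × Bool) => φ p.1 :=
  hφ.tf.1.continuous.measurable.comp measurable_fst

theorem int_wt (H : Hyp Ω lam u) {φ : ℂ → ℝ} (hφ : Wt Ω φ) :
    Integrable (fun p : ℂ × (ℝ × Bool) => φ p.1) (P Ω) := by
  have := probP H
  exact Integrable.of_bound (meas_wt hφ).aestronglyMeasurable 1 (Eventually.of_forall fun p => by
      rw [Real.norm_eq_abs, abs_of_nonneg (hφ.mem _).1]
      exact (hφ.mem _).2)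

/-- removing the weight costs at most the missing mass -/
theorem wt_err (H : Hyp Ω lam u) {φ : ℂ → ℝ} (hφ : Wt Ω φ) {g : ℂ × (ℝ × Bool) → ℂ}
    (hg : Measurable g) (hn : ∀ p, ‖g p‖ = 1) :
    ‖(∫ p, (φ p.1 : ℂ) * g p ∂(P Ω)) - ∫ p, g p ∂(P Ω)‖ ≤ 1 - ∫ z, φ z ∂(Pz Ω) := by
  have := probP H
  have hi : Integrable g (P Ω) := Integrable.of_bound hg.aestronglyMeasurable 1
    (Eventually.of_forall fun p => (hn p).le)
  have hi2 : Integrable (fun p => (φ p.1 : ℂ) * g p) (P Ω) :=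
    Integrable.of_bound ((Complex.measurable_ofReal.comp (meas_wt hφ)).mul
      hg).aestronglyMeasurable 1
      (Eventually.of_forall fun p => by
        rw [norm_mul, hn, mul_one, Complex.norm_real, Real.norm_eq_abs,
          abs_of_nonneg (hφ.mem _).1]
        exact (hφ.mem _).2)
  rw [← fstP H, ← integral_sub hi2 hi]
  refine (norm_integral_le_integral_norm _).trans (le_of_eq ?_)
  have h4 : ∀ p : ℂ × (ℝ × Bool), ‖(φ p.1 : ℂ) * g p - g p‖ = 1 - φ p.1 := by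
    intro p
    have : (φ p.1 : ℂ) * g p - g p = ((φ p.1 - 1 : ℝ) : ℂ) * g p := by
      push_cast
      ring
    rw [this, norm_mul, hn, mul_one, Complex.norm_real, Real.norm_eq_abs,
      abs_of_nonpos (by linarith [(hφ.mem p.1).2])]
    ring
  simp only [h4]
  rw [integral_sub (integrable_const _) (int_wt H hφ)]
  simp

end

/-- the joint characteristic function without a weight -/
theorem jchar_one (h : S_BRIDGE2) {d : ℕ} {Ω : Set ℂ} {lam : Fin d → ℕ → ℝ}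
    {u : Fin d → ℕ → ℂ → ℝ} (H : ∀ i, Hyp Ω (lam i) (u i)) (hd : 0 < d) {k : ℕ}
    (w : Fin d → Fin k → ℂ) (t : Fin d → Fin k → ℝ) {χ : ℂ} (hχ : ‖χ‖ ≤ 1)
    (hc : ∀ ψ, TF Ω ψ → Tendsto
      (fun n => jChar Ω ψ (fun i => lam i n) (fun i => u i n) w t) atTop
      (𝓝 (χ * area Ω fun z => (ψ z : ℂ)))) :
    Tendsto (fun n => jChar Ω (fun _ => 1) (fun i => lam i n) (fun i => u i n) w t) atTop
      (𝓝 ((mass Ω : ℂ) * χ)) := by
  have H0 := H ⟨0, hd⟩
  have hprob := probP H0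
  have hmass : (mass Ω : ℂ) ≠ 0 := by exact_mod_cast (mpos H0).ne'
  have hs : Tendsto (fun n => ∫ p, eXJ (fun i => lam i n) (fun i => u i n)
      (fun i => fs (w i) (t i)) p ∂(P Ω)) atTop (𝓝 χ) := by
    obtain ⟨φ, hφ, hlim⟩ := exists_wt H0
    rw [Metric.tendsto_atTop']
    intro ε hε
    obtain ⟨i, hi⟩ := (hlim.eventually (lt_mem_nhds (show 1 - ε / 4 < (1 : ℝ) by linarith))).exists
    have harea : (area Ω fun z => ((φ i z : ℝ) : ℂ)) =
        (mass Ω : ℂ) * ((∫ z, φ i z ∂(Pz Ω) : ℝ) : ℂ) := by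
      rw [int_Pz (mpos H0)]
      unfold area
      rw [smul_eq_mul, Complex.ofReal_mul, ← mul_assoc, Complex.ofReal_inv, mul_inv_cancel₀ hmass,
        one_mul, ← integral_complex_ofReal]
      refine integral_congr_ae (Eventually.of_forall fun z => ?_)
      simp
    have h1 := (hc (φ i) (hφ i).tf).const_mul (mass Ω : ℂ)⁻¹
    have h2 : (mass Ω : ℂ)⁻¹ * (χ * area Ω fun z => ((φ i z : ℝ) : ℂ)) =
        χ * ((∫ z, φ i z ∂(Pz Ω) : ℝ) : ℂ) := by
      rw [harea]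
      field_simp
    rw [h2] at h1
    have h3 := (Metric.tendsto_nhds.1 h1) (ε / 4) (by positivity)
    have h3' := h d Ω lam u H hd (φ i) (Or.inl (hφ i).tf) k w t
    obtain ⟨N, hN⟩ := Filter.eventually_atTop.1 (h3.and h3')
    refine ⟨N, fun n hn => ?_⟩
    obtain ⟨h4, hw⟩ := hN n hn.le
    rw [hw, ← mul_assoc, inv_mul_cancel₀ hmass, one_mul, dist_eq_norm] at h4
    have h5 := wt_err H0 (hφ i) (g := eXJ (fun i => lam i n) (fun i => u i n)
      (fun i => fs (w i) (t i))) (eXJ_meas (fun i => (H i).sm n) _) (eXJ_norm _ _ _)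
    rw [dist_eq_norm]
    set A := ∫ p, eXJ (fun i => lam i n) (fun i => u i n) (fun i => fs (w i) (t i)) p ∂(P Ω)
    set B := ∫ p, ((φ i p.1 : ℝ) : ℂ) * eXJ (fun i => lam i n) (fun i => u i n)
      (fun i => fs (w i) (t i)) p ∂(P Ω)
    set m := ∫ z, φ i z ∂(Pz Ω)
    have h6 : ‖χ * ((m : ℝ) : ℂ) - χ‖ ≤ 1 - m := by
      have : χ * ((m : ℝ) : ℂ) - χ = χ * ((m - 1 : ℝ) : ℂ) := by push_cast; ring
      have hm1 : m ≤ 1 := by
        have := (norm_nonneg (B - A)).trans h5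
        linarith
      rw [this, norm_mul, Complex.norm_real, Real.norm_eq_abs, abs_of_nonpos (by linarith)]
      nlinarith [norm_nonneg χ]
    have h7 : A - χ = -(B - A) + (B - χ * ((m : ℝ) : ℂ)) + (χ * ((m : ℝ) : ℂ) - χ) := by ring
    rw [h7]
    calc ‖-(B - A) + (B - χ * ((m : ℝ) : ℂ)) + (χ * ((m : ℝ) : ℂ) - χ)‖
        ≤ ‖-(B - A)‖ + ‖B - χ * ((m : ℝ) : ℂ)‖ + ‖χ * ((m : ℝ) : ℂ) - χ‖ := norm_add₃_le
      _ < ε := by
        rw [norm_neg]
        linarith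
  have h1 := h d Ω lam u H hd (fun _ => 1) (Or.inr rfl) k w t
  refine (hs.const_mul (mass Ω : ℂ)).congr' ?_
  filter_upwards [h1] with n hn
  rw [hn]
  simp only [Complex.ofReal_one, one_mul]

/-- Jensen -/
theorem sq_int_le {X : Type} [MeasurableSpace X] {μ : Measure X} [IsProbabilityMeasure μ]
    {G : X → ℂ} (hG : Measurable G) {C : ℝ} (hC : ∀ x, ‖G x‖ ≤ C) :
    ‖∫ x, G x ∂μ‖ ^ 2 ≤ ∫ x, ‖G x‖ ^ 2 ∂μ := by
  have hi : Integrable (fun f => ‖G f‖) μ :=
    Integrable.of_bound hG.norm.aestronglyMeasurable C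
      (Eventually.of_forall fun f => by rw [norm_norm]; exact hC f)
  have hi2 : Integrable (fun f => ‖G f‖ ^ 2) μ :=
    Integrable.of_bound (hG.norm.pow_const 2).aestronglyMeasurable
      (C ^ 2) (Eventually.of_forall fun f => by
        rw [Real.norm_eq_abs, abs_of_nonneg (by positivity)]
        exact pow_le_pow_left₀ (norm_nonneg _) (hC f) 2)
  obtain ⟨m, hm⟩ : ∃ m, m = ∫ f, ‖G f‖ ∂μ := ⟨_, rfl⟩
  have e1 : ‖∫ f, G f ∂μ‖ ≤ m := by
    rw [hm]
    exact norm_integral_le_integral_norm _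
  have e2 : 0 ≤ ∫ f, (‖G f‖ - m) ^ 2 ∂μ := integral_nonneg fun f => sq_nonneg _
  have e3 : ∫ f, (‖G f‖ - m) ^ 2 ∂μ = (∫ f, ‖G f‖ ^ 2 ∂μ) - m ^ 2 := by
    have e4 : ∀ f, (‖G f‖ - m) ^ 2 = ‖G f‖ ^ 2 - 2 * m * ‖G f‖ + m ^ 2 := fun f => by ring
    simp_rw [e4]
    have s1 := integral_sub hi2 (hi.const_mul (2 * m))
    have s2 := integral_add (hi2.sub (hi.const_mul (2 * m))) (integrable_const (m ^ 2))
    simp only [Pi.sub_apply] at s2
    rw [s2, s1, integral_const_mul, ← hm]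
    simp only [integral_const, probReal_univ, one_smul]
    ring
  calc ‖∫ f, G f ∂μ‖ ^ 2 ≤ m ^ 2 := pow_le_pow_left₀ (norm_nonneg _) e1 2
    _ ≤ ∫ f, ‖G f‖ ^ 2 ∂μ := by linarith

theorem norm_chr {γ : Measure MW} [IsProbabilityMeasure γ] {k : ℕ} (w : Fin k → ℂ)
    (t : Fin k → ℝ) : ‖∫ f, Complex.exp (I * (lin w t f : ℝ)) ∂γ‖ ≤ 1 := by
  refine (norm_integral_le_integral_norm _).trans (le_of_eq ?_)
  have : ∀ f : MW, ‖Complex.exp (I * (lin w t f : ℝ))‖ = 1 := fun f => by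
    rw [mul_comm, Complex.norm_exp_ofReal_mul_I]
  simp only [this]
  simp

/-- the characteristic functions of independent waves -/
theorem int_pi {γ : Measure MW} [IsProbabilityMeasure γ] {d k : ℕ} (w : Fin d → Fin k → ℂ)
    (t : Fin d → Fin k → ℝ) :
    ∫ F : Fin d → MW, Complex.exp (I * ((∑ i, lin (w i) (t i) (F i) : ℝ) : ℂ))
      ∂(Measure.pi fun _ => γ) = ∏ i, ∫ f, Complex.exp (I * (lin (w i) (t i) f : ℝ)) ∂γ := by
  rw [← integral_fintype_prod_eq_prod (fun i f => Complex.exp (I * (lin (w i) (t i) f : ℝ)))]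
  refine integral_congr_ae (Eventually.of_forall fun F => ?_)
  show Complex.exp (I * ((∑ i, lin (w i) (t i) (F i) : ℝ) : ℂ)) =
    ∏ i, Complex.exp (I * (lin (w i) (t i) (F i) : ℝ))
  rw [← Complex.exp_sum, ← Finset.mul_sum, Complex.ofReal_sum]

/-- **SG/BCV** -/
theorem bcv (h : S_BRIDGE2) : S_BCV := by
  intro d Ω lam u H hd γ hγ hc U A
  refine ⟨mass Ω ^ 2, ?_⟩
  intro n k w t c _ _ ε hε
  have hone : ∀ m, Tendsto (fun l => jChar Ω (fun _ => 1) (fun i => lam i l) (fun i => u i l) w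
      (t m)) atTop (𝓝 ((mass Ω : ℂ) * ∏ i, ∫ f, Complex.exp (I * (lin (w i) (t m i) f : ℝ)) ∂γ)) := by
    intro m
    refine jchar_one h H hd w (t m) ?_ fun ψ hψ => hc ψ hψ k w (t m)
    rw [norm_prod]
    exact Finset.prod_le_one (fun i _ => norm_nonneg _) fun i _ => norm_chr _ _
  have hem : ∀ m, Measurable fun F : Fin d → MW =>
      Complex.exp (I * ((∑ i, lin (w i) (t m i) (F i) : ℝ) : ℂ)) := by
    intro m
    have h1 : Measurable fun F : Fin d → MW => ∑ i, lin (w i) (t m i) (F i) :=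
      Finset.measurable_sum _ fun i _ => (meas_lin (w i) (t m i)).comp (measurable_pi_apply i)
    exact Complex.measurable_exp.comp ((Complex.measurable_ofReal.comp h1).const_mul I)
  have hen : ∀ m (F : Fin d → MW),
      ‖Complex.exp (I * ((∑ i, lin (w i) (t m i) (F i) : ℝ) : ℂ))‖ = 1 := fun m F => by
    rw [mul_comm, Complex.norm_exp_ofReal_mul_I]
  have hGm : Measurable fun F : Fin d → MW =>
      ∑ m, c m * Complex.exp (I * ((∑ i, lin (w i) (t m i) (F i) : ℝ) : ℂ)) :=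
    Finset.measurable_sum _ fun m _ => (hem m).const_mul _
  have hGb : ∀ F : Fin d → MW,
      ‖∑ m, c m * Complex.exp (I * ((∑ i, lin (w i) (t m i) (F i) : ℝ) : ℂ))‖ ≤
        ∑ m, ‖c m‖ := fun F => by
    refine (norm_sum_le _ _).trans (Finset.sum_le_sum fun m _ => ?_)
    rw [norm_mul, hen, mul_one]
  have hint : ∫ F : Fin d → MW,
      ∑ m, c m * Complex.exp (I * ((∑ i, lin (w i) (t m i) (F i) : ℝ) : ℂ))
        ∂(Measure.pi fun _ => γ) =
      ∑ m, c m * ∏ i, ∫ f, Complex.exp (I * (lin (w i) (t m i) f : ℝ)) ∂γ := by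
    rw [integral_finsetSum _ fun m _ => ?_]
    · refine Finset.sum_congr rfl fun m _ => ?_
      rw [integral_const_mul, int_pi]
    · exact (Integrable.of_bound (hem m).aestronglyMeasurable 1
        (Eventually.of_forall fun F => (hen m F).le)).const_mul _
  have hJ := sq_int_le (μ := Measure.pi fun _ : Fin d => γ) hGm hGb
  have hlim : Tendsto (fun l => ‖∑ m, c m * jChar Ω (fun _ => 1) (fun i => lam i l)
      (fun i => u i l) w (t m)‖ ^ 2) atTop
      (𝓝 (mass Ω ^ 2 * ‖∑ m, c m * ∏ i, ∫ f, Complex.exp (I * (lin (w i) (t m i) f : ℝ)) ∂γ‖ ^ 2)) := by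
    have h1 := (tendsto_finsetSum Finset.univ fun m _ => (hone m).const_mul (c m)).norm.pow 2
    have h2 : ∑ m, c m * ((mass Ω : ℂ) *
        ∏ i, ∫ f, Complex.exp (I * (lin (w i) (t m i) f : ℝ)) ∂γ) =
        (mass Ω : ℂ) * ∑ m, c m * ∏ i, ∫ f, Complex.exp (I * (lin (w i) (t m i) f : ℝ)) ∂γ := by
      rw [Finset.mul_sum]
      refine Finset.sum_congr rfl fun m _ => ?_
      ring
    rw [h2, norm_mul, mul_pow, Complex.norm_real, Real.norm_eq_abs, sq_abs] at h1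
    exact h1
  rw [hint] at hJ
  refine (hlim.eventually (gt_mem_nhds ?_)).mono fun l hl => hl.le
  have := mul_le_mul_of_nonneg_left hJ (sq_nonneg (mass Ω))
  linarith

end Pool.Agent.H333.SG
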